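import Mathlib

set_option autoImplicit false

open Filter Topology

namespace Pool.Agent.Results.MP_24d2d6_an.NoUniversalMultiplier

section Defs

variable {𝕜 X : Type} [NontriviallyNormedField 𝕜] [NormedAddCommGroup X] [NormedSpace 𝕜 X]

/-- `T` is quasi-rigid: along some strictly increasing sequence `θ` of positive integers one has
`T ^ θ n x → x` for every `x` in a dense set. -/
def QuasiRigid (T : X →L[𝕜] X) : Prop :=
  ∃ θ : ℕ → ℕ, StrictMono θ ∧ (∀ n, 0 < θ n) ∧ ∃ D : Set X, Dense D ∧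
    ∀ x ∈ D, Tendsto (fun n => (T ^ θ n) x) atTop (𝓝 x)

/-- `Ω(T)`: the bounded operators `h` such that, along some strictly increasing sequence `ω` of
positive integers, `T ^ ω n x → h x` for every `x` in a dense set. -/
def Omega (T : X →L[𝕜] X) : Set (X →L[𝕜] X) :=
  {h | ∃ ω : ℕ → ℕ, StrictMono ω ∧ (∀ n, 0 < ω n) ∧ ∃ D : Set X, Dense D ∧
    ∀ x ∈ D, Tendsto (fun n => (T ^ ω n) x) atTop (𝓝 (h x))}

/-- The closure of a set of bounded operators in the strong operator topology (Mathlib's topology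
of pointwise convergence on continuous linear maps). -/
def SOTClosure (A : Set (X →L[𝕜] X)) : Set (X →L[𝕜] X) :=
  {h | ContinuousLinearMap.toPointwiseConvergenceCLM 𝕜 (RingHom.id 𝕜) X X h ∈
    closure ((ContinuousLinearMap.toPointwiseConvergenceCLM 𝕜 (RingHom.id 𝕜) X X) '' A)}

end Defs

/-- The negated form of the question over the field `𝕜`: there are a separable Banach space `X`
and a quasi-rigid bounded operator `T` on `X` such that for no bounded operator `Λ` the set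
`Ω(T)` is contained in the SOT-closure of `{T ^ n Λ : n ≥ 0}` (hence nor in that of
`{T ^ n Λ : n ≥ 1}`). -/
def Disproof (𝕜 : Type) [NontriviallyNormedField 𝕜] : Prop :=
  ∃ (X : Type) (_ : NormedAddCommGroup X) (_ : NormedSpace 𝕜 X), CompleteSpace X ∧
    TopologicalSpace.SeparableSpace X ∧ ∃ T : X →L[𝕜] X, QuasiRigid T ∧
      ∀ Λ : X →L[𝕜] X, ¬ (Omega T ⊆ SOTClosure {S | ∃ n : ℕ, S = T ^ n * Λ})

section Approx

variable {𝕜 X : Type} [NontriviallyNormedField 𝕜] [NormedAddCommGroup X] [NormedSpace 𝕜 X]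

lemma approx {A : Set (X →L[𝕜] X)} {h : X →L[𝕜] X} (hh : h ∈ SOTClosure A) (F : Finset X)
    {ε : ℝ} (hε : 0 < ε) : ∃ S ∈ A, ∀ x ∈ F, ‖S x - h x‖ < ε := by
  have hopen : IsOpen {g : X →Lₚₜ[𝕜] X | ∀ x ∈ F, ‖g x - h x‖ < ε} := by
    have : {g : X →Lₚₜ[𝕜] X | ∀ x ∈ F, ‖g x - h x‖ < ε}
        = ⋂ x ∈ F, (fun g : X →Lₚₜ[𝕜] X => g x) ⁻¹' {z : X | ‖z - h x‖ < ε} := by
      ext g; simp
    rw [this]
    refine isOpen_biInter_finset fun x _ => ?_
    have hc : Continuous fun g : X →Lₚₜ[𝕜] X => g x := 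
      (PointwiseConvergenceCLM.evalCLM (RingHom.id 𝕜) X x).continuous
    refine IsOpen.preimage hc ?_
    exact isOpen_lt ((continuous_id.sub continuous_const).norm) continuous_const
  have hmem : ContinuousLinearMap.toPointwiseConvergenceCLM 𝕜 (RingHom.id 𝕜) X X h ∈
      {g : X →Lₚₜ[𝕜] X | ∀ x ∈ F, ‖g x - h x‖ < ε} := by
    intro x _
    have : (ContinuousLinearMap.toPointwiseConvergenceCLM 𝕜 (RingHom.id 𝕜) X X h) x = h x := rfl
    rw [this]
    simpa using hε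
  have hh' : ContinuousLinearMap.toPointwiseConvergenceCLM 𝕜 (RingHom.id 𝕜) X X h ∈
      closure ((ContinuousLinearMap.toPointwiseConvergenceCLM 𝕜 (RingHom.id 𝕜) X X) '' A) := hh
  obtain ⟨g, hg1, hg2⟩ := mem_closure_iff.1 hh' _ hopen hmem
  obtain ⟨S, hS, rfl⟩ := hg2
  exact ⟨S, hS, fun x hx => hg1 x hx⟩

end Approx

/-! ### The concrete operator -/

/-- the eigenvalues -/
noncomputable def β (j : ℕ) : ℂ := Complex.exp (Complex.I * ((Real.pi / 2 ^ j : ℝ) : ℂ))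

lemma β_pow (j n : ℕ) : β j ^ n = Complex.exp (Complex.I * (((n : ℝ) * (Real.pi / 2 ^ j) : ℝ) : ℂ)) := by
  unfold β
  rw [← Complex.exp_nat_mul]
  congr 1
  push_cast
  ring

lemma norm_β (j : ℕ) : ‖β j‖ = 1 := by
  unfold β
  rw [mul_comm]
  exact Complex.norm_exp_ofReal_mul_I _

lemma β_ne_zero (j : ℕ) : β j ≠ 0 := by
  intro h
  have := norm_β j
  rw [h] at this
  simp at this

lemma β_ne_one (j : ℕ) : β j ≠ 1 := by
  intro h
  have h1 : ‖β j - 1‖ = ‖2 * Real.sin ((Real.pi / 2 ^ j) / 2)‖ :=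
    Complex.norm_exp_I_mul_ofReal_sub_one _
  rw [h, sub_self, norm_zero] at h1
  have h2 : 0 < Real.sin ((Real.pi / 2 ^ j) / 2) := by
    apply Real.sin_pos_of_pos_of_lt_pi
    · positivity
    · have : Real.pi / 2 ^ j ≤ Real.pi := div_le_self Real.pi_pos.le (one_le_pow₀ (by norm_num))
      linarith [Real.pi_pos]
  have h3 : 0 < ‖2 * Real.sin ((Real.pi / 2 ^ j) / 2)‖ :=
    norm_pos_iff.2 (mul_pos (by norm_num) h2).ne'
  linarith

lemma β_pow_two_pow (j n : ℕ) (h : j < n) (m : ℕ) : β j ^ (2 ^ n * m) = 1 := by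
  have h1 : β j ^ (2 ^ (j + 1)) = 1 := by
    rw [β_pow]
    have : Complex.I * ((((2 ^ (j + 1) : ℕ) : ℝ) * (Real.pi / 2 ^ j) : ℝ) : ℂ)
        = 2 * Real.pi * Complex.I := by
      push_cast
      field_simp
      ring
    rw [this, Complex.exp_two_pi_mul_I]
  obtain ⟨d, rfl⟩ := Nat.exists_eq_add_of_lt h
  have : 2 ^ (j + d + 1) * m = 2 ^ (j + 1) * (2 ^ d * m) := by ring
  rw [this, pow_mul, h1, one_pow]

/-- the off-diagonal entries of the powers -/
noncomputable def s (j n : ℕ) : ℂ := ∑ k ∈ Finset.range n, β j ^ k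

lemma s_mul (j n : ℕ) : s j n * (β j - 1) = β j ^ n - 1 := by
  unfold s
  exact geom_sum_mul _ _

lemma s_two_pow (j n : ℕ) (h : j < n) (m : ℕ) : s j (2 ^ n * m) = 0 := by
  have h1 := s_mul j (2 ^ n * m)
  rw [β_pow_two_pow j n h m, sub_self] at h1
  exact (mul_eq_zero.1 h1).resolve_right (sub_ne_zero.2 (β_ne_one j))

lemma s_lower (N : ℕ) (hN : 1 ≤ N) : ∃ j : ℕ, 1 / 4 ≤ ‖s j N‖ * (1 / 2 : ℝ) ^ j := by
  set i := Nat.log 2 N with hi
  have hN0 : N ≠ 0 := by omega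
  have h1 : 2 ^ i ≤ N := Nat.pow_log_le_self 2 hN0
  have h2 : N < 2 ^ (i + 1) := Nat.lt_pow_succ_log_self (by norm_num) N
  refine ⟨i + 1, ?_⟩
  have h1' : (2 : ℝ) ^ i ≤ N := by exact_mod_cast h1
  have h2' : (N : ℝ) < 2 ^ (i + 1) := by exact_mod_cast h2
  have hpos : (0 : ℝ) < 2 ^ (i + 1) := by positivity
  set x : ℝ := (N : ℝ) * (Real.pi / 2 ^ (i + 1)) with hx
  have hnorm1 : ‖β (i + 1) ^ N - 1‖ = ‖2 * Real.sin (x / 2)‖ := by
    rw [β_pow]
    exact Complex.norm_exp_I_mul_ofReal_sub_one _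
  have hx2 : x / 2 ≤ Real.pi / 2 := by
    have : x ≤ Real.pi := by
      rw [hx, mul_div_assoc', div_le_iff₀ hpos]
      nlinarith [Real.pi_pos]
    linarith
  have hx0 : 0 ≤ x / 2 := by positivity
  have hsin : 2 / Real.pi * (x / 2) ≤ Real.sin (x / 2) := Real.mul_le_sin hx0 hx2
  have hval : 2 / Real.pi * (x / 2) = N / 2 ^ (i + 1) := by
    rw [hx]
    field_simp
  have hhalf : (1 / 2 : ℝ) ≤ N / 2 ^ (i + 1) := by
    rw [le_div_iff₀ hpos, pow_succ]
    linarith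
  have hge : 1 ≤ ‖β (i + 1) ^ N - 1‖ := by
    rw [hnorm1, Real.norm_eq_abs]
    refine le_trans ?_ (le_abs_self _)
    rw [hval] at hsin
    linarith
  have hle : ‖β (i + 1) - 1‖ ≤ Real.pi / 2 ^ (i + 1) := by
    have := @Real.norm_exp_I_mul_ofReal_sub_one_le (Real.pi / 2 ^ (i + 1))
    rw [Real.norm_eq_abs, abs_of_nonneg (by positivity)] at this
    exact this
  have hmul := s_mul (i + 1) N
  have hprod : ‖s (i + 1) N‖ * ‖β (i + 1) - 1‖ = ‖β (i + 1) ^ N - 1‖ := by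
    rw [← norm_mul, hmul]
  have h3 : 1 ≤ ‖s (i + 1) N‖ * (Real.pi / 2 ^ (i + 1)) := by
    calc (1 : ℝ) ≤ ‖β (i + 1) ^ N - 1‖ := hge
      _ = ‖s (i + 1) N‖ * ‖β (i + 1) - 1‖ := hprod.symm
      _ ≤ _ := mul_le_mul_of_nonneg_left hle (norm_nonneg _)
  have h4 : ‖s (i + 1) N‖ * (Real.pi / 2 ^ (i + 1))
      = Real.pi * (‖s (i + 1) N‖ * (1 / 2 : ℝ) ^ (i + 1)) := by
    rw [one_div, inv_pow]
    field_simp
  rw [h4] at h3
  have h5 : 0 ≤ ‖s (i + 1) N‖ * (1 / 2 : ℝ) ^ (i + 1) := by positivity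
  nlinarith [Real.pi_lt_four]

/-- the sequence space `ℓ²` -/
abbrev E : Type := lp (fun _ : ℕ => ℂ) 2

section Op

variable (𝕜 : Type) [NontriviallyNormedField 𝕜] [NormedAlgebra 𝕜 ℂ]

lemma mul_mem (m : ℕ → ℂ) (hm : ∀ j, ‖m j‖ = 1) (f : E) :
    Memℓp (fun j => m j * f j) 2 := by
  have hp : 0 < (2 : ENNReal).toReal := by norm_num
  rw [memℓp_gen_iff hp]
  have := (memℓp_gen_iff hp).1 (lp.memℓp f)
  simpa [norm_mul, hm] using this

/-- multiplication by a unimodular sequence -/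
noncomputable def mulOp (m : ℕ → ℂ) (hm : ∀ j, ‖m j‖ = 1) : E →L[𝕜] E :=
  LinearMap.mkContinuous
    { toFun := fun f => ⟨fun j => m j * f j, mul_mem m hm f⟩
      map_add' := fun f g => by
        refine lp.ext (funext fun j => ?_)
        change m j * (f j + g j) = m j * f j + m j * g j
        ring
      map_smul' := fun c f => by
        refine lp.ext (funext fun j => ?_)
        change m j * (c • f j) = c • (m j * f j)
        rw [mul_smul_comm] }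
    1 (fun f => by
      have hp : 0 < (2 : ENNReal).toReal := by norm_num
      rw [lp.norm_eq_tsum_rpow hp, lp.norm_eq_tsum_rpow hp]
      simp [hm])

lemma mulOp_apply (m : ℕ → ℂ) (hm : ∀ j, ‖m j‖ = 1) (f : E) (j : ℕ) :
    (mulOp 𝕜 m hm f) j = m j * f j := rfl

/-- the operator `T(u,v) = (u + v, B v)` -/
noncomputable def T : (E × E) →L[𝕜] (E × E) :=
  (ContinuousLinearMap.fst 𝕜 E E + ContinuousLinearMap.snd 𝕜 E E).prod
    ((mulOp 𝕜 β norm_β).comp (ContinuousLinearMap.snd 𝕜 E E))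

lemma norm_β_inv (j : ℕ) : ‖(β j)⁻¹‖ = 1 := by rw [norm_inv, norm_β, inv_one]

/-- the inverse `(u,v) ↦ (u - B⁻¹ v, B⁻¹ v)` -/
noncomputable def Tinv : (E × E) →L[𝕜] (E × E) :=
  (ContinuousLinearMap.fst 𝕜 E E -
    (mulOp 𝕜 (fun j => (β j)⁻¹) norm_β_inv).comp (ContinuousLinearMap.snd 𝕜 E E)).prod
    ((mulOp 𝕜 (fun j => (β j)⁻¹) norm_β_inv).comp (ContinuousLinearMap.snd 𝕜 E E))

lemma T_fst (x : E × E) (j : ℕ) : ((T 𝕜 x).1 : ℕ → ℂ) j = x.1 j + x.2 j := rfl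
lemma T_snd (x : E × E) (j : ℕ) : ((T 𝕜 x).2 : ℕ → ℂ) j = β j * x.2 j := rfl
lemma Tinv_fst (x : E × E) (j : ℕ) :
    ((Tinv 𝕜 x).1 : ℕ → ℂ) j = x.1 j - (β j)⁻¹ * x.2 j := rfl
lemma Tinv_snd (x : E × E) (j : ℕ) : ((Tinv 𝕜 x).2 : ℕ → ℂ) j = (β j)⁻¹ * x.2 j := rfl

lemma Tpow (n : ℕ) : ∀ (x : E × E) (j : ℕ),
    (((T 𝕜 ^ n) x).1 : ℕ → ℂ) j = x.1 j + s j n * x.2 j ∧
      (((T 𝕜 ^ n) x).2 : ℕ → ℂ) j = β j ^ n * x.2 j := by
  induction n with
  | zero => intro x j; simp [s]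
  | succ n ih =>
    intro x j
    have h := ih (T 𝕜 x) j
    have e : (T 𝕜 ^ (n + 1)) x = (T 𝕜 ^ n) (T 𝕜 x) := by
      rw [pow_succ]; rfl
    rw [e, h.1, h.2, T_fst, T_snd]
    constructor
    · have : s j (n + 1) = β j * s j n + 1 := by
        unfold s; exact geom_sum_succ
      rw [this]; ring
    · ring

lemma Tinv_T (x : E × E) : Tinv 𝕜 (T 𝕜 x) = x := by
  refine Prod.ext (lp.ext ?_) (lp.ext ?_)
  · funext j
    rw [Tinv_fst, T_fst, T_snd, ← mul_assoc, inv_mul_cancel₀ (β_ne_zero j)]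
    ring
  · funext j
    rw [Tinv_snd, T_snd, ← mul_assoc, inv_mul_cancel₀ (β_ne_zero j), one_mul]

end Op

/-- finitely supported vectors, with support in `[0, N)` -/
def Supp (N : ℕ) (x : E × E) : Prop := ∀ j, N ≤ j → x.1 j = 0 ∧ x.2 j = 0

/-- the set of finitely supported vectors -/
def D : Set (E × E) := {x | ∃ N, Supp N x}

lemma sum_single_apply (u : E) (n j : ℕ) (h : n ≤ j) :
    ((∑ i ∈ Finset.range n, lp.single (E := fun _ : ℕ => ℂ) 2 i (u i) : E) : ℕ → ℂ) j = 0 := by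
  rw [lp.coeFn_sum, Finset.sum_apply]
  refine Finset.sum_eq_zero fun i hi => ?_
  rw [Finset.mem_range] at hi
  exact lp.single_apply_ne 2 i _ (by omega)

lemma dense_D : Dense D := by
  intro x
  have h1 := (lp.hasSum_single (E := fun _ : ℕ => ℂ) (p := 2) (by norm_num) x.1).tendsto_sum_nat
  have h2 := (lp.hasSum_single (E := fun _ : ℕ => ℂ) (p := 2) (by norm_num) x.2).tendsto_sum_nat
  refine mem_closure_of_tendsto (h1.prodMk_nhds h2) (Eventually.of_forall fun n => ?_)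
  exact ⟨n, fun j hj => ⟨sum_single_apply x.1 n j hj, sum_single_apply x.2 n j hj⟩⟩

instance sepE : TopologicalSpace.SeparableSpace E := by
  rw [← TopologicalSpace.isSeparable_univ_iff]
  have h0 : TopologicalSpace.IsSeparable
      (Set.range fun k : ℕ => (lp.single (E := fun _ : ℕ => ℂ) 2 k (1 : ℂ) : E)) :=
    (Set.countable_range _).isSeparable
  have h1 := (h0.span (R := ℂ)).closure
  refine h1.mono fun u _ => ?_
  have h2 := (lp.hasSum_single (E := fun _ : ℕ => ℂ) (p := 2) (by norm_num) u).tendsto_sum_nat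
  refine mem_closure_of_tendsto h2 (Eventually.of_forall fun n => ?_)
  refine Submodule.sum_mem _ fun i _ => ?_
  have : (lp.single (E := fun _ : ℕ => ℂ) 2 i (u i) : E)
      = u i • (lp.single (E := fun _ : ℕ => ℂ) 2 i (1 : ℂ) : E) := by
    rw [← lp.single_smul]
    simp
  rw [this]
  exact Submodule.smul_mem _ _ (Submodule.subset_span ⟨i, rfl⟩)

section Main

variable (𝕜 : Type) [NontriviallyNormedField 𝕜] [NormedAlgebra 𝕜 ℂ]

lemma pow_two_pow_apply {N : ℕ} {x : E × E} (hx : Supp N x) {n : ℕ} (hn : N ≤ n) (m : ℕ) :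
    (T 𝕜 ^ (2 ^ n * m)) x = x := by
  refine Prod.ext (lp.ext ?_) (lp.ext ?_)
  · funext j
    rw [(Tpow 𝕜 _ x j).1]
    rcases lt_or_ge j N with hj | hj
    · rw [s_two_pow j n (by omega) m]; simp
    · rw [(hx j hj).2]; simp
  · funext j
    rw [(Tpow 𝕜 _ x j).2]
    rcases lt_or_ge j N with hj | hj
    · rw [β_pow_two_pow j n (by omega) m]; simp
    · rw [(hx j hj).2]; simp

lemma quasiRigid : QuasiRigid (T 𝕜) := by
  refine ⟨fun n => 2 ^ n, fun a b h => Nat.pow_lt_pow_right (by norm_num) h,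
    fun n => by positivity, D, dense_D, ?_⟩
  rintro x ⟨N, hN⟩
  refine tendsto_const_nhds.congr' ?_
  filter_upwards [eventually_ge_atTop N] with n hn
  have := pow_two_pow_apply 𝕜 hN hn 1
  rw [mul_one] at this
  exact this.symm

lemma one_mem_Omega : (1 : (E × E) →L[𝕜] (E × E)) ∈ Omega (T 𝕜) := by
  obtain ⟨θ, h1, h2, D', h3, h4⟩ := quasiRigid 𝕜
  exact ⟨θ, h1, h2, D', h3, fun x hx => by simpa using h4 x hx⟩

lemma coord_le (x : E × E) (j : ℕ) : ‖x.1 j‖ ≤ ‖x‖ ∧ ‖x.2 j‖ ≤ ‖x‖ :=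
  ⟨(lp.norm_apply_le_norm (by norm_num) x.1 j).trans (norm_fst_le x),
    (lp.norm_apply_le_norm (by norm_num) x.2 j).trans (norm_snd_le x)⟩

omit [NontriviallyNormedField 𝕜] [NormedAlgebra 𝕜 ℂ] in
lemma y2_mem : Memℓp (fun j : ℕ => ((1 / 2 : ℂ)) ^ j) 2 := by
  have hp : 0 < (2 : ENNReal).toReal := by norm_num
  rw [memℓp_gen_iff hp]
  have : (fun i : ℕ => ‖((1 / 2 : ℂ)) ^ i‖ ^ (2 : ENNReal).toReal) = fun i : ℕ => ((1 / 4 : ℝ)) ^ i := by
    funext i
    rw [norm_pow]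
    simp
    rw [← pow_mul, mul_comm, pow_mul]
    norm_num
  rw [this]
  exact summable_geometric_of_lt_one (by norm_num) (by norm_num)

/-- the test vector -/
noncomputable def y2 : E := ⟨fun j => ((1 / 2 : ℂ)) ^ j, y2_mem⟩

/-- the test vector -/
noncomputable def y : E × E := (0, y2)

lemma norm_y (j : ℕ) : ‖y.2 j‖ = (1 / 2 : ℝ) ^ j := by
  change ‖((1 / 2 : ℂ)) ^ j‖ = _
  rw [norm_pow]
  simp

theorem disproof : Disproof 𝕜 := by
  refine ⟨E × E, inferInstance, inferInstance, inferInstance, inferInstance, T 𝕜, quasiRigid 𝕜, ?_⟩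
  intro Λ hΛ
  -- approximation of the identity
  have hI : ∀ (F : Finset (E × E)) {ε : ℝ}, 0 < ε → ∃ n : ℕ, ∀ x ∈ F, ‖(T 𝕜 ^ n) (Λ x) - x‖ < ε := by
    intro F ε hε
    obtain ⟨S, ⟨n, rfl⟩, hS⟩ := approx (hΛ (one_mem_Omega 𝕜)) F hε
    exact ⟨n, fun x hx => by simpa using hS x hx⟩
  -- the second coordinates of `Λ x`
  have hnorm2 : ∀ (x : E × E) (j : ℕ), ‖(Λ x).2 j‖ = ‖x.2 j‖ := by
    intro x j
    refine eq_of_forall_dist_le fun ε hε => ?_
    obtain ⟨n, hn⟩ := hI {x} hε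
    have h1 := hn x (Finset.mem_singleton_self x)
    have h2 := (coord_le ((T 𝕜 ^ n) (Λ x) - x) j).2
    have h3 : (((T 𝕜 ^ n) (Λ x) - x).2 : ℕ → ℂ) j = β j ^ n * (Λ x).2 j - x.2 j := by
      rw [← (Tpow 𝕜 n (Λ x) j).2]; rfl
    rw [h3] at h2
    have h4 : ‖(Λ x).2 j‖ = ‖β j ^ n * (Λ x).2 j‖ := by
      rw [norm_mul, norm_pow, norm_β, one_pow, one_mul]
    rw [Real.dist_eq, h4]
    exact (abs_norm_sub_norm_le _ _).trans (h2.trans h1.le)
  -- `Λ` preserves vanishing of coordinates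
  have hzero : ∀ (x : E × E) (j : ℕ), x.1 j = 0 → x.2 j = 0 → (Λ x).1 j = 0 ∧ (Λ x).2 j = 0 := by
    intro x j hx1 hx2
    have h2 : (Λ x).2 j = 0 := by
      rw [← norm_eq_zero, hnorm2 x j, hx2, norm_zero]
    refine ⟨?_, h2⟩
    rw [← norm_eq_zero]
    refine eq_of_forall_dist_le fun ε hε => ?_
    obtain ⟨n, hn⟩ := hI {x} hε
    have h1 := hn x (Finset.mem_singleton_self x)
    have h3 := (coord_le ((T 𝕜 ^ n) (Λ x) - x) j).1
    have h4 : (((T 𝕜 ^ n) (Λ x) - x).1 : ℕ → ℂ) j = (Λ x).1 j + s j n * (Λ x).2 j - x.1 j := by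
      rw [← (Tpow 𝕜 n (Λ x) j).1]; rfl
    rw [h4, h2, hx1, mul_zero, add_zero, sub_zero] at h3
    rw [Real.dist_eq, sub_zero, abs_norm]
    exact h3.trans h1.le
  have hsupp : ∀ (N : ℕ) (x : E × E), Supp N x → Supp N (Λ x) := by
    intro N x hx j hj
    exact hzero x j (hx j hj).1 (hx j hj).2
  -- a countable dense set of finitely supported vectors
  have : SecondCountableTopology (E × E) := inferInstance
  have : TopologicalSpace.SeparableSpace D := inferInstance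
  obtain ⟨t, htD, htc, htd⟩ := Dense.exists_countable_dense_subset dense_D
  have htne : t.Nonempty := htd.nonempty
  obtain ⟨d, hd⟩ := htc.exists_eq_range htne
  -- the sequence
  have hchoose : ∀ J : ℕ, ∃ n : ℕ, ∀ i ≤ J, ‖(T 𝕜 ^ n) (Λ (d i)) - d i‖ < 1 / ((J : ℝ) + 1) := by
    intro J
    classical
    obtain ⟨n, hn⟩ := hI ((Finset.range (J + 1)).image d) (ε := 1 / ((J : ℝ) + 1)) (by positivity)
    exact ⟨n, fun i hi => hn (d i) (Finset.mem_image_of_mem d (Finset.mem_range.2 (by omega)))⟩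
  choose nn hnn using hchoose
  set om : ℕ → ℕ := fun J => 2 ^ J * (nn J + 1 + J + 1) - (nn J + 1) with hom
  have hom1 : ∀ J, om J + (nn J + 1) = 2 ^ J * (nn J + 1 + J + 1) := by
    intro J
    have : nn J + 1 ≤ 2 ^ J * (nn J + 1 + J + 1) :=
      calc nn J + 1 ≤ nn J + 1 + J + 1 := by omega
        _ ≤ _ := Nat.le_mul_of_pos_left _ (by positivity)
    simp only [hom]
    omega
  have hom2 : ∀ J, J + 1 ≤ om J := by
    intro J
    have h := hom1 J
    have : nn J + 1 + J + 1 ≤ 2 ^ J * (nn J + 1 + J + 1) :=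
      Nat.le_mul_of_pos_left _ (by positivity)
    omega
  have hconv : ∀ x ∈ t, Tendsto (fun J => (T 𝕜 ^ om J) x) atTop (𝓝 (Tinv 𝕜 (Λ x))) := by
    intro x hx
    obtain ⟨N, hN⟩ := htD hx
    rw [hd] at hx
    obtain ⟨i0, rfl⟩ := hx
    have hLN := hsupp N _ hN
    -- powers on vectors with support in `[0,N)`
    set C : ℝ := ∑ r ∈ Finset.range (2 ^ N), ‖T 𝕜 ^ r‖ with hC
    have hbound : ∀ (v : E × E), Supp N v → ∀ n : ℕ, ‖(T 𝕜 ^ n) v‖ ≤ C * ‖v‖ := by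
      intro v hv n
      have e : (T 𝕜 ^ n) v = (T 𝕜 ^ (n % 2 ^ N)) v := by
        conv_lhs => rw [← Nat.mod_add_div n (2 ^ N), pow_add]
        change (T 𝕜 ^ (n % 2 ^ N)) ((T 𝕜 ^ (2 ^ N * (n / 2 ^ N))) v) = _
        rw [pow_two_pow_apply 𝕜 hv le_rfl]
      rw [e]
      refine (ContinuousLinearMap.le_opNorm _ _).trans ?_
      refine mul_le_mul_of_nonneg_right ?_ (norm_nonneg _)
      exact Finset.single_le_sum (f := fun r => ‖T 𝕜 ^ r‖) (fun r _ => norm_nonneg (T 𝕜 ^ r))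
        (Finset.mem_range.2 (Nat.mod_lt _ (by positivity)))
    have hkey : ∀ J, N ≤ J → i0 ≤ J →
        ‖(T 𝕜 ^ om J) (d i0) - Tinv 𝕜 (Λ (d i0))‖ ≤ C * (1 / ((J : ℝ) + 1)) := by
      intro J hJ hi
      set v := (T 𝕜 ^ nn J) (Λ (d i0)) - d i0 with hv
      have hvs : Supp N v := by
        intro j hj
        have h1 : (v.1 : ℕ → ℂ) j = (Λ (d i0)).1 j + s j (nn J) * (Λ (d i0)).2 j - (d i0).1 j := by
          rw [← (Tpow 𝕜 (nn J) (Λ (d i0)) j).1]; rfl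
        have h2 : (v.2 : ℕ → ℂ) j = β j ^ (nn J) * (Λ (d i0)).2 j - (d i0).2 j := by
          rw [← (Tpow 𝕜 (nn J) (Λ (d i0)) j).2]; rfl
        rw [h1, h2, (hLN j hj).1, (hLN j hj).2, (hN j hj).1, (hN j hj).2]
        simp
      have hvn : ‖v‖ < 1 / ((J : ℝ) + 1) := hnn J i0 hi
      have e1 : (T 𝕜 ^ om J) (d i0) = (T 𝕜 ^ (om J + nn J)) (Λ (d i0)) - (T 𝕜 ^ om J) v := by
        have : d i0 = (T 𝕜 ^ nn J) (Λ (d i0)) - v := by rw [hv]; abel
        conv_lhs => rw [this, map_sub]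
        rw [pow_add]
        rfl
      have e2 : (T 𝕜 ^ (om J + nn J)) (Λ (d i0)) = Tinv 𝕜 (Λ (d i0)) := by
        have h1 : T 𝕜 ((T 𝕜 ^ (om J + nn J)) (Λ (d i0))) = Λ (d i0) := by
          have h2 : T 𝕜 ((T 𝕜 ^ (om J + nn J)) (Λ (d i0))) = (T 𝕜 ^ (om J + (nn J + 1))) (Λ (d i0)) := by
            rw [← add_assoc, pow_succ']; rfl
          rw [h2, hom1 J]
          exact pow_two_pow_apply 𝕜 hLN hJ _
        rw [← Tinv_T 𝕜 ((T 𝕜 ^ (om J + nn J)) (Λ (d i0))), h1]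
      rw [e1, e2]
      have e3 : Tinv 𝕜 (Λ (d i0)) - (T 𝕜 ^ om J) v - Tinv 𝕜 (Λ (d i0)) = -((T 𝕜 ^ om J) v) := by abel
      rw [e3, norm_neg]
      refine (hbound v hvs _).trans ?_
      exact mul_le_mul_of_nonneg_left hvn.le (Finset.sum_nonneg fun r _ => norm_nonneg (T 𝕜 ^ r))
    rw [tendsto_iff_norm_sub_tendsto_zero]
    have hlim : Tendsto (fun J : ℕ => C * (1 / ((J : ℝ) + 1))) atTop (𝓝 0) := by
      have := (tendsto_one_div_add_atTop_nhds_zero_nat (𝕜 := ℝ)).const_mul C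
      simpa using this
    refine squeeze_zero' (Eventually.of_forall fun _ => norm_nonneg _) ?_ hlim
    filter_upwards [eventually_ge_atTop (max N i0)] with J hJ
    exact hkey J ((le_max_left _ _).trans hJ) ((le_max_right _ _).trans hJ)
  have hmem : (Tinv 𝕜).comp Λ ∈ Omega (T 𝕜) := by
    have htend : Tendsto om atTop atTop := by
      refine tendsto_atTop_mono (fun J => ?_) tendsto_id
      have := hom2 J
      simp only [id]
      omega
    obtain ⟨φ, hφ1, hφ2⟩ := Filter.strictMono_subseq_of_tendsto_atTop htend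
    refine ⟨om ∘ φ, hφ2, fun n => ?_, t, htd, fun x hx => ?_⟩
    · have := hom2 (φ n)
      simp only [Function.comp]
      omega
    · exact (hconv x hx).comp hφ1.tendsto_atTop
  -- contradiction
  obtain ⟨S, ⟨n, rfl⟩, hS⟩ := approx (hΛ hmem) {y} (ε := 1 / 4) (by norm_num)
  have h1 := hS y (Finset.mem_singleton_self y)
  obtain ⟨j, hj⟩ := s_lower (n + 1) (by omega)
  have h2 := (coord_le ((T 𝕜 ^ n * Λ) y - ((Tinv 𝕜).comp Λ) y) j).1
  have h3 : (((T 𝕜 ^ n * Λ) y - ((Tinv 𝕜).comp Λ) y).1 : ℕ → ℂ) j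
      = (β j)⁻¹ * s j (n + 1) * (Λ y).2 j := by
    have h4 : (((T 𝕜 ^ n * Λ) y - ((Tinv 𝕜).comp Λ) y).1 : ℕ → ℂ) j
        = (((T 𝕜 ^ n) (Λ y)).1 : ℕ → ℂ) j - ((Tinv 𝕜 (Λ y)).1 : ℕ → ℂ) j := rfl
    rw [h4, (Tpow 𝕜 n (Λ y) j).1, Tinv_fst]
    have h5 : s j (n + 1) = β j * s j n + 1 := by
      unfold s; exact geom_sum_succ
    rw [h5]
    have h6 := β_ne_zero j
    field_simp
    ring
  rw [h3, norm_mul, norm_mul, norm_β_inv, one_mul, hnorm2 y j, norm_y] at h2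
  linarith

end Main

/-- Full negative answer to Q1, over both scalar fields. The Banach space is `ℓ² × ℓ²` and
`T(u,v) = (u + v, B v)`, where `B` is the diagonal operator with the entries
`exp(2πi / 2^(j+1))`. -/
theorem result : Disproof ℝ ∧ Disproof ℂ := ⟨disproof ℝ, disproof ℂ⟩

end Pool.Agent.Results.MP_24d2d6_an.NoUniversalMultiplier
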